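import Mathlib
import Pool.Agent.R50.OddCycle
import Pool.Agent.R50.ErdosIndep

/-!
# For which bipartite graphs is the chromatic number an admissible bound?

For graphs `F` of chromatic number `2` the number `χ(F) = 2` is admissible if and only if `F` is a
linear forest (a disjoint union of paths, that is, an induced subgraph of a path).
-/

set_option autoImplicit false

namespace Pool.Agent.Results.MP_30ed83_co.LinearForests

open SimpleGraph Pool.Agent.R50.OddCycle Pool.Agent.R50.ErdosIndep Pool.Agent.W179.Erdos

/-- `c` is admissible for `F`: for every `r` there is a finite graph `G` with `χ(G) > r` and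
`ω(G) = ω(F)` such that every induced subgraph of `G` without induced copy of `F` has chromatic
number at most `c`. -/
def Admissible {n : ℕ} (F : SimpleGraph (Fin n)) (c : ℕ∞) : Prop :=
  ∀ r : ℕ, ∃ (m : ℕ) (G : SimpleGraph (Fin m)), (r : ℕ∞) < G.chromaticNumber ∧
    G.cliqueNum = F.cliqueNum ∧ ∀ s : Set (Fin m), ¬ F.IsIndContained (G.induce s) →
      (G.induce s).chromaticNumber ≤ c

/-- An induced path in a closed walk without repeated vertices and chords. -/
theorem path_of_cycle {V : Type*} {G : SimpleGraph V} {n k : ℕ} (hkn : k < n) {f : ℕ → V}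
    (hf : Closed G n f) (hinj : ∀ i < n, ∀ j < n, f i = f j → i = j)
    (hch : ∀ i < n, ∀ j < n, G.Adj (f i) (f j) → (i + 1 = j ∨ j + 1 = i ∨ (i = 0 ∧ j + 1 = n) ∨
      (j = 0 ∧ i + 1 = n))) : (pathGraph k).IsIndContained G := by
  refine ⟨⟨⟨fun i => f i.val, fun i j hij => Fin.ext (hinj _ (by omega) _ (by omega) hij)⟩, ?_⟩⟩
  intro i j
  show G.Adj (f i.val) (f j.val) ↔ (pathGraph k).Adj i j
  rw [pathGraph_adj]
  constructor
  · intro h
    have := hch i.val (by omega) j.val (by omega) h
    omega
  · rintro (h | h)
    · rw [← h]
      exact hf.2 _ (by omega)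
    · rw [← h]
      exact (hf.2 _ (by omega)).symm

/-- A proper induced subgraph of an induced cycle is an induced subgraph of a path. -/
theorem of_cycle {V : Type*} {G : SimpleGraph V} {n m : ℕ} {F : SimpleGraph (Fin m)} {f : ℕ → V}
    (hn : 3 ≤ n) (hf : Closed G n f) (hinj : ∀ i < n, ∀ j < n, f i = f j → i = j)
    (hch : ∀ i < n, ∀ j < n, G.Adj (f i) (f j) → (i + 1 = j ∨ j + 1 = i ∨ (i = 0 ∧ j + 1 = n) ∨
      (j = 0 ∧ i + 1 = n))) (e : F ↪g G) (he : ∀ v, ∃ i < n, f i = e v) (k : ℕ) (hk : k < n)
    (hmiss : ∀ v, e v ≠ f k) : F.IsIndContained (pathGraph n) := by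
  choose g hg1 hg2 using he
  have hgk : ∀ v, g v ≠ k := fun v h => hmiss v (by rw [← hg2 v, h])
  let p : ℕ → ℕ := fun i => if k < i then i - k - 1 else i + (n - k - 1)
  have hp : ∀ i < n, i ≠ k → p i < n := by
    intro i hi hik
    show (if k < i then i - k - 1 else i + (n - k - 1)) < n
    split_ifs <;> omega
  refine ⟨⟨⟨fun v => ⟨p (g v), hp _ (hg1 v) (hgk v)⟩, ?_⟩, ?_⟩⟩
  · intro u v huv
    have h1 : p (g u) = p (g v) := congrArg Fin.val huv
    have h2 := hg1 u
    have h3 := hg1 v
    have h4 := hgk u
    have h5 := hgk v
    have h6 : g u = g v := by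
      have h7 : (if k < g u then g u - k - 1 else g u + (n - k - 1)) =
        (if k < g v then g v - k - 1 else g v + (n - k - 1)) := h1
      split_ifs at h7 <;> omega
    apply e.injective
    rw [← hg2 u, ← hg2 v, h6]
  · intro u v
    show (pathGraph n).Adj ⟨p (g u), _⟩ ⟨p (g v), _⟩ ↔ F.Adj u v
    rw [pathGraph_adj]
    show (p (g u) + 1 = p (g v) ∨ p (g v) + 1 = p (g u)) ↔ F.Adj u v
    rw [← e.map_rel_iff, ← hg2 u, ← hg2 v]
    have h2 := hg1 u
    have h3 := hg1 v
    have h4 := hgk u
    have h5 := hgk v
    have hpu : p (g u) = if k < g u then g u - k - 1 else g u + (n - k - 1) := rfl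
    have hpv : p (g v) = if k < g v then g v - k - 1 else g v + (n - k - 1) := rfl
    constructor
    · intro h
      have h6 : g u + 1 = g v ∨ g v + 1 = g u ∨ (g u = 0 ∧ g v + 1 = n) ∨
          (g v = 0 ∧ g u + 1 = n) := by
        rw [hpu, hpv] at h
        split_ifs at h <;> omega
      rcases h6 with h6 | h6 | ⟨h6, h7⟩ | ⟨h6, h7⟩
      · rw [← h6]
        exact hf.2 _ (by omega)
      · rw [← h6]
        exact (hf.2 _ (by omega)).symm
      · have h8 := hf.2 (g v) (by omega)
        rw [h7, ← hf.1] at h8
        rw [h6]
        exact h8.symm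
      · have h8 := hf.2 (g u) (by omega)
        rw [h7, ← hf.1] at h8
        rw [h6]
        exact h8
    · intro h
      have h6 := hch _ h2 _ h3 h
      rw [hpu, hpv]
      split_ifs <;> omega

/-- Let `F` be a finite graph of chromatic number `2` (a bipartite graph with at least one edge).
The number `χ(F) = 2` is admissible for `F` if and only if `F` is an induced subgraph of a path,
that is, a linear forest. -/
theorem result (n : ℕ) (F : SimpleGraph (Fin n)) (hF : F.chromaticNumber = 2) :
    Admissible F F.chromaticNumber ↔ ∃ k : ℕ, F.IsIndContained (pathGraph k) := by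
  classical
  have hF2 : F.Colorable 2 := chromaticNumber_le_iff_colorable.1 hF.le
  constructor
  · intro h
    obtain ⟨m, G, hchi, hω, hs⟩ := h 2
    have hG : ¬ G.Colorable 2 := by
      intro hc
      exact absurd hc.chromaticNumber_le (not_le.2 hchi)
    obtain ⟨l, hodd, hl3, f, hf, hinj, hch⟩ := exists_induced_odd_cycle hG
    let s : Set (Fin m) := {v | ∃ i < l, f i = v}
    have hmem : ∀ i ≤ l, f i ∈ s := by
      intro i hi
      rcases Nat.lt_or_ge i l with h1 | h1
      · exact ⟨i, h1, rfl⟩
      · have h2 : i = l := le_antisymm hi h1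
        subst h2
        exact ⟨0, by omega, hf.1⟩
    by_contra hcon
    refine not_colorable_of_closed hodd hf hmem ?_
    refine chromaticNumber_le_iff_colorable.1 ((hs s ?_).trans hF.le)
    rintro ⟨e⟩
    let e' : F ↪g G := e.trans (Embedding.induce s)
    have he' : ∀ v, ∃ i < l, f i = e' v := fun v => (e v).2
    by_cases hall : ∀ k < l, ∃ v, e' v = f k
    · -- `F` would contain the odd cycle
      refine not_colorable_of_closed hodd hf (s := Set.range e') ?_ ?_
      · intro i hi
        rcases Nat.lt_or_ge i l with h1 | h1
        · exact hall i h1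
        · have h2 : i = l := le_antisymm hi h1
          rw [h2, ← hf.1]
          exact hall 0 (by omega)
      · obtain ⟨C⟩ := hF2
        choose g hg using (fun x : Set.range e' => x.2)
        refine ⟨Coloring.mk (fun x => C (g x)) ?_⟩
        intro x y hxy
        apply C.valid
        rw [← e'.map_rel_iff]
        show G.Adj (e' (g x)) (e' (g y))
        rw [hg, hg]
        exact hxy
    · push Not at hall
      obtain ⟨k, hk, hmiss⟩ := hall
      exact hcon ⟨l, of_cycle hl3 hf hinj hch e' he' k hk hmiss⟩
  · rintro ⟨k, ⟨e⟩⟩ r
    obtain ⟨V, _, H, hI, hg⟩ := erdos_indep (r + 3) (k + 3) (by omega)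
    have htri : H.CliqueFree 3 := triangleFree_of_girth (by omega) hg
    have hr : ¬ H.Colorable (r + 2) := by
      rintro ⟨C⟩
      have h1 : Fintype.card V = ∑ i : Fin (r + 2), (Finset.univ.filter fun v => C v = i).card := by
        rw [← Finset.card_univ]
        exact Finset.card_eq_sum_card_fiberwise (fun v _ => Finset.mem_univ _)
      have h2 : ∀ i : Fin (r + 2), (r + 3) * (Finset.univ.filter fun v => C v = i).card ≤
          Fintype.card V := by
        intro i
        refine (hI _ ?_).le
        intro u hu v hv _ hadj
        rw [Finset.mem_coe, Finset.mem_filter] at hu hv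
        exact C.valid hadj (hu.2.trans hv.2.symm)
      have h3 : (r + 3) * Fintype.card V ≤ (r + 2) * Fintype.card V := by
        calc (r + 3) * Fintype.card V =
            ∑ i : Fin (r + 2), (r + 3) * (Finset.univ.filter fun v => C v = i).card := by
              rw [← Finset.mul_sum, ← h1]
          _ ≤ ∑ _i : Fin (r + 2), Fintype.card V := Finset.sum_le_sum fun i _ => h2 i
          _ = (r + 2) * Fintype.card V := by simp
      have h4 : 0 < Fintype.card V := by
        have := hI ∅ (by simp)
        simpa using this
      nlinarith
    let φ : V ≃ Fin (Fintype.card V) := Fintype.equivFin V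
    let G : SimpleGraph (Fin (Fintype.card V)) := H.map φ.toEmbedding
    let iso : H ≃g G := Iso.map φ H
    have hG : ¬ G.Colorable (r + 2) := fun hc => hr (hc.of_hom iso.toHom)
    have hG3 : G.CliqueFree 3 := by
      intro s hs
      exact htri (s.map iso.symm.toEmbedding.toEmbedding)
        (by
          have := hs.map (f := iso.symm.toEmbedding.toEmbedding)
          refine this.mono ?_
          rw [map_le_iff_le_comap]
          intro a b hab
          exact iso.symm.map_rel_iff.2 hab)
    refine ⟨Fintype.card V, G, ?_, ?_, ?_⟩
    · by_contra hcon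
      push Not at hcon
      exact hG ((chromaticNumber_le_iff_colorable.1 hcon).mono (by omega))
    · -- both clique numbers are `2`
      have h1 : G.cliqueNum = 2 := by
        apply le_antisymm
        · obtain ⟨s, hs⟩ := G.exists_isNClique_cliqueNum
          by_contra hcon
          push Not at hcon
          exact hG3.mono (by omega) s hs
        · obtain ⟨a, b, hab⟩ : ∃ a b, G.Adj a b := by
            by_contra hcon
            push Not at hcon
            exact hG ⟨Coloring.mk (fun _ => 0) (fun {a b} h => absurd h (hcon a b))⟩
          have h2 : G.IsClique (({a, b} : Finset (Fin (Fintype.card V))) : Set _) := by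
            rw [Finset.coe_pair, isClique_pair]
            exact fun _ => hab
          have h3 := h2.card_le_cliqueNum
          rwa [Finset.card_pair hab.ne] at h3
      have h2 : F.cliqueNum = 2 := by
        apply le_antisymm
        · obtain ⟨s, hs⟩ := F.exists_isNClique_cliqueNum
          rw [← hs.card_eq]
          exact hs.isClique.card_le_of_colorable hF2
        · obtain ⟨a, b, hab⟩ : ∃ a b, F.Adj a b := by
            by_contra hcon
            push Not at hcon
            have h3 : F.Colorable 1 :=
              ⟨Coloring.mk (fun _ => 0) (fun {a b} h => absurd h (hcon a b))⟩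
            have h4 := h3.chromaticNumber_le
            rw [hF] at h4
            exact absurd h4 (by decide)
          have h2 : F.IsClique (({a, b} : Finset (Fin n)) : Set _) := by
            rw [Finset.coe_pair, isClique_pair]
            exact fun _ => hab
          have h3 := h2.card_le_cliqueNum
          rwa [Finset.card_pair hab.ne] at h3
      rw [h1, h2]
    · intro s hs
      rw [hF]
      refine chromaticNumber_le_iff_colorable.2 ?_
      by_contra hcon
      obtain ⟨l, hodd, hl3, f, hf, hinj, hch⟩ := exists_induced_odd_cycle hcon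
      apply hs
      -- the cycle is long
      have hlong : k + 3 < l := by
        refine hg l (fun i => iso.symm (f i).1) ⟨hl3, ?_, ?_, ?_⟩
        · intro i hi j hj hij
          exact hinj i hi j hj (Subtype.ext (iso.symm.injective hij))
        · intro i hi
          exact iso.symm.map_rel_iff.2 (hf.2 i (by omega))
        · have h1 := hf.2 (l - 1) (by omega)
          have h2 : l - 1 + 1 = l := by omega
          rw [h2, ← hf.1] at h1
          exact iso.symm.map_rel_iff.2 h1
      obtain ⟨e2⟩ := path_of_cycle (k := k) (by omega) hf hinj hch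
      exact ⟨e.trans e2⟩

end Pool.Agent.Results.MP_30ed83_co.LinearForests
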